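import Pool.Agent.N557.QW.Stm

/-! QWP/SOT (helper55, project QWP of helper557). -/

set_option autoImplicit false

namespace Pool.Agent.N55.QWP

open Pool.Agent.H494R3.GT Pool.Agent.N557.QW

noncomputable section

section amp

variable {H κ : Type} [NormedAddCommGroup H] [InnerProductSpace ℂ H] [CompleteSpace H] [Fintype κ]

/-- amplification -/
def amp (κ : Type) [Fintype κ] (T : H →L[ℂ] H) :
    PiLp 2 (fun _ : κ => H) →L[ℂ] PiLp 2 (fun _ : κ => H) :=
  ((PiLp.continuousLinearEquiv 2 ℂ (fun _ : κ => H)).symm : (κ → H) →L[ℂ] PiLp 2 (fun _ : κ => H)) ∘L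
    (ContinuousLinearMap.pi fun k => T ∘L ContinuousLinearMap.proj k) ∘L
    ((PiLp.continuousLinearEquiv 2 ℂ (fun _ : κ => H)) : PiLp 2 (fun _ : κ => H) →L[ℂ] (κ → H))

lemma amp_apply (T : H →L[ℂ] H) (x : PiLp 2 (fun _ : κ => H)) (k : κ) : amp κ T x k = T (x k) := rfl

lemma amp_inner (T : H →L[ℂ] H) (x y : PiLp 2 (fun _ : κ => H)) :
    inner ℂ (amp κ T x) y = inner ℂ x (amp κ (star T) y) := by
  simp only [PiLp.inner_apply, amp_apply, ContinuousLinearMap.star_eq_adjoint,
    ContinuousLinearMap.adjoint_inner_right]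

open scoped Classical in
/-- inclusion -/
def inj (l : κ) : H →L[ℂ] PiLp 2 (fun _ : κ => H) :=
  ((PiLp.continuousLinearEquiv 2 ℂ (fun _ : κ => H)).symm : (κ → H) →L[ℂ] PiLp 2 (fun _ : κ => H)) ∘L
    (ContinuousLinearMap.single ℂ (fun _ : κ => H) l)

open scoped Classical in
lemma inj_apply (l k : κ) (u : H) : inj l u k = if k = l then u else 0 := by
  change (Pi.single l u : κ → H) k = _
  rw [Pi.single_apply]

lemma sum_inj (x : PiLp 2 (fun _ : κ => H)) : x = ∑ l, inj l (x l) := by
  classical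
  ext k
  rw [WithLp.ofLp_sum, Finset.sum_apply]
  simp [inj_apply]

lemma amp_inj (T : H →L[ℂ] H) (l : κ) (u : H) : amp κ T (inj l u) = inj l (T u) := by
  classical
  ext k
  change T (inj l u k) = inj l (T u) k
  rw [inj_apply, inj_apply]
  split_ifs <;> simp

/-- the entries -/
def ent (P : PiLp 2 (fun _ : κ => H) →L[ℂ] PiLp 2 (fun _ : κ => H)) (k l : κ) : H →L[ℂ] H :=
  (ContinuousLinearMap.proj k : (κ → H) →L[ℂ] H) ∘L
    ((PiLp.continuousLinearEquiv 2 ℂ (fun _ : κ => H)) : PiLp 2 (fun _ : κ => H) →L[ℂ] (κ → H)) ∘L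
    P ∘L inj l

lemma ent_apply (P : PiLp 2 (fun _ : κ => H) →L[ℂ] PiLp 2 (fun _ : κ => H)) (k l : κ) (u : H) :
    ent P k l u = P (inj l u) k := rfl

lemma amp_comm (S : Set (H →L[ℂ] H)) (z : H →L[ℂ] H)
    (hz : z ∈ Set.centralizer (Set.centralizer S))
    (P : PiLp 2 (fun _ : κ => H) →L[ℂ] PiLp 2 (fun _ : κ => H))
    (hP : ∀ s ∈ S, ∀ x, P (amp κ s x) = amp κ s (P x)) (x : PiLp 2 (fun _ : κ => H)) :
    P (amp κ z x) = amp κ z (P x) := by
  have h1 : ∀ k l, ent P k l ∈ Set.centralizer S := by
    intro k l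
    rw [Set.mem_centralizer_iff]
    intro s hs
    ext u
    change s (ent P k l u) = ent P k l (s u)
    rw [ent_apply, ent_apply, ← amp_inj, hP s hs, amp_apply]
  have h2 : ∀ k l u, ent P k l (z u) = z (ent P k l u) := by
    intro k l u
    have := (Set.mem_centralizer_iff.1 hz) _ (h1 k l)
    exact congrArg (fun T : H →L[ℂ] H => T u) this
  ext k
  rw [amp_apply]
  conv_lhs => rw [sum_inj (amp κ z x)]
  conv_rhs => rw [sum_inj x]
  rw [map_sum, map_sum, WithLp.ofLp_sum, Finset.sum_apply, WithLp.ofLp_sum, Finset.sum_apply, map_sum]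
  refine Finset.sum_congr rfl fun l _ => ?_
  rw [amp_apply]
  exact h2 k l (x l)

/-- the double commutant theorem for vectors -/
lemma dcomm (S : Set (H →L[ℂ] H)) (h1 : 1 ∈ S) (hmul : ∀ s ∈ S, ∀ t ∈ S, s * t ∈ S)
    (hstar : ∀ s ∈ S, star s ∈ S) (z : H →L[ℂ] H)
    (hz : z ∈ Set.centralizer (Set.centralizer S)) (x y : κ → H)
    (h : ∀ s ∈ S, ∑ k, inner ℂ (y k) (s (x k)) = 0) : ∑ k, inner ℂ (y k) (z (x k)) = 0 := by
  let X : PiLp 2 (fun _ : κ => H) := WithLp.toLp 2 x
  let Y : PiLp 2 (fun _ : κ => H) := WithLp.toLp 2 y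
  let N : Submodule ℂ (PiLp 2 (fun _ : κ => H)) := Submodule.span ℂ {u | ∃ s ∈ S, u = amp κ s X}
  have hY : Y ∈ Nᗮ := by
    rw [Submodule.mem_orthogonal']
    intro u hu
    induction hu using Submodule.span_induction with
    | mem u hu =>
      obtain ⟨s, hs, rfl⟩ := hu
      rw [PiLp.inner_apply]
      exact h s hs
    | zero => exact inner_zero_right _
    | add a b _ _ ha hb => rw [inner_add_right, ha, hb, add_zero]
    | smul c a _ ha => rw [inner_smul_right, ha, mul_zero]
  have hNinv : ∀ s ∈ S, ∀ u ∈ N, amp κ s u ∈ N := by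
    intro s hs u hu
    induction hu using Submodule.span_induction with
    | mem u hu =>
      obtain ⟨t, ht, rfl⟩ := hu
      exact Submodule.subset_span ⟨s * t, hmul s hs t ht, rfl⟩
    | zero => rw [map_zero]; exact Submodule.zero_mem _
    | add a b _ _ ha hb => rw [map_add]; exact Submodule.add_mem _ ha hb
    | smul c a _ ha => rw [map_smul]; exact Submodule.smul_mem _ _ ha
  have hMinv : ∀ s ∈ S, ∀ u ∈ Nᗮ, amp κ s u ∈ Nᗮ := by
    intro s hs u hu
    rw [Submodule.mem_orthogonal'] at hu ⊢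
    intro a ha
    rw [amp_inner]
    exact hu _ (hNinv _ (hstar s hs) a ha)
  have hMMinv : ∀ s ∈ S, ∀ u ∈ Nᗮᗮ, amp κ s u ∈ Nᗮᗮ := by
    intro s hs u hu
    rw [Submodule.mem_orthogonal'] at hu ⊢
    intro a ha
    rw [amp_inner]
    exact hu _ (hMinv _ (hstar s hs) a ha)
  have hX : X ∈ Nᗮᗮ := by
    apply Submodule.le_orthogonal_orthogonal
    exact Submodule.subset_span ⟨1, h1, rfl⟩
  have hP : ∀ s ∈ S, ∀ u, Nᗮ.starProjection (amp κ s u) = amp κ s (Nᗮ.starProjection u) := by
    intro s hs u
    refine (Submodule.eq_starProjection_of_mem_orthogonal ?_ ?_)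
    · exact hMinv s hs _ (Submodule.starProjection_apply_mem _ _)
    · rw [← map_sub]
      exact hMMinv s hs _ (Submodule.sub_starProjection_mem_orthogonal _)
  have hz2 := amp_comm S z hz Nᗮ.starProjection hP X
  have hPX : Nᗮ.starProjection X = 0 := by
    apply Submodule.eq_starProjection_of_mem_orthogonal (Submodule.zero_mem _)
    rw [sub_zero]; exact hX
  rw [hPX, map_zero] at hz2
  have hPY : Nᗮ.starProjection Y = Y := Submodule.starProjection_eq_self_iff.2 hY
  have : inner ℂ Y (amp κ z X) = 0 := by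
    rw [← hPY, Submodule.inner_starProjection_left_eq_right, hz2, inner_zero_right]
  rw [PiLp.inner_apply] at this
  exact this

end amp

/-- closures of real subspaces -/
lemma real_closure {X : Type} [NormedAddCommGroup X] [InnerProductSpace ℂ X] [CompleteSpace X]
    (E : Set X) (h0 : (0 : X) ∈ E) (hadd : ∀ a ∈ E, ∀ b ∈ E, a + b ∈ E)
    (hsmul : ∀ r : ℝ, ∀ a ∈ E, (r : ℂ) • a ∈ E) (t : X)
    (h : ∀ w : X, (∀ a ∈ E, (inner ℂ w a).re = 0) → (inner ℂ w t).re = 0) : t ∈ closure E := by
  letI : InnerProductSpace ℝ X := InnerProductSpace.rclikeToReal ℂ X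
  let E' : Submodule ℝ X :=
    { carrier := E
      add_mem' := fun {a b} ha hb => hadd a ha b hb
      zero_mem' := h0
      smul_mem' := fun r a ha => hsmul r a ha }
  have : t ∈ E'.topologicalClosure := by
    rw [← Submodule.orthogonal_orthogonal_eq_closure, Submodule.mem_orthogonal]
    intro w hw
    rw [Submodule.mem_orthogonal'] at hw
    exact h w fun a ha => hw a ha
  exact this

lemma opr_eq {G : Type} [Group G] {H : Type} [NormedAddCommGroup H] [InnerProductSpace ℂ H]
    (u : G →* (H →L[ℂ] H)) (a : G →₀ ℂ) :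
    opr u a = Finsupp.linearCombination ℂ (fun g => u g) a := rfl

theorem t_sot (hcom : S_COM) : S_SOT := by
  intro G _ z hz hzs n v ε hε
  have hz2 : z ∈ Set.centralizer (Set.centralizer (Set.range (lam : G → L2 G →L[ℂ] L2 G))) := by
    rw [(hcom G).1]; exact hz
  let vec : (L2 G →L[ℂ] L2 G) → PiLp 2 (fun _ : Fin n => L2 G) := fun T =>
    WithLp.toLp 2 (fun j => T (v j))
  let E : Set (PiLp 2 (fun _ : Fin n => L2 G)) :=
    {x | ∃ a : G →₀ ℂ, (∀ g, a g⁻¹ = (starRingEnd ℂ) (a g)) ∧ x = vec (opr (lamH G) a)}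
  have hcl : vec z ∈ closure E := by
    apply real_closure E
    · refine ⟨0, fun g => by simp, ?_⟩
      rw [opr_eq, map_zero]
      ext j : 1
      simp [vec]
    · rintro _ ⟨a, ha, rfl⟩ _ ⟨b, hb, rfl⟩
      refine ⟨a + b, fun g => by simp [ha, hb], ?_⟩
      rw [opr_eq, opr_eq, opr_eq, map_add]
      rfl
    · rintro r _ ⟨a, ha, rfl⟩
      refine ⟨(r : ℂ) • a, fun g => by simp [ha], ?_⟩
      rw [opr_eq, opr_eq, map_smul]
      rfl
    · intro w hw
      -- the functional
      have key : ∀ T : L2 G →L[ℂ] L2 G, star T = T →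
          ∑ k : Fin n ⊕ Fin n, inner ℂ ((Sum.elim (fun j => w j) v : Fin n ⊕ Fin n → L2 G) k)
            (T ((Sum.elim v (fun j => w j) : Fin n ⊕ Fin n → L2 G) k)) =
            ((2 * (inner ℂ w (vec T)).re : ℝ) : ℂ) := by
        intro T hT
        rw [Fintype.sum_sum_type, PiLp.inner_apply]
        simp only [Sum.elim_inl, Sum.elim_inr]
        have e1 : ∀ j, inner ℂ (v j) (T (w j)) = (starRingEnd ℂ) (inner ℂ (w j) (T (v j))) := by
          intro j
          rw [inner_conj_symm]
          conv_rhs => rw [← hT, ContinuousLinearMap.star_eq_adjoint,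
            ContinuousLinearMap.adjoint_inner_left]
        simp only [e1]
        rw [← map_sum, Complex.add_conj]
      have hlin : ∀ (c d : ℂ) (S T : L2 G →L[ℂ] L2 G),
          ∑ k : Fin n ⊕ Fin n, inner ℂ ((Sum.elim (fun j => w j) v : Fin n ⊕ Fin n → L2 G) k)
            ((c • S + d • T) ((Sum.elim v (fun j => w j) : Fin n ⊕ Fin n → L2 G) k)) =
          c * ∑ k : Fin n ⊕ Fin n, inner ℂ ((Sum.elim (fun j => w j) v : Fin n ⊕ Fin n → L2 G) k)
            (S ((Sum.elim v (fun j => w j) : Fin n ⊕ Fin n → L2 G) k)) +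
          d * ∑ k : Fin n ⊕ Fin n, inner ℂ ((Sum.elim (fun j => w j) v : Fin n ⊕ Fin n → L2 G) k)
            (T ((Sum.elim v (fun j => w j) : Fin n ⊕ Fin n → L2 G) k)) := by
        intro c d S T
        rw [Finset.mul_sum, Finset.mul_sum, ← Finset.sum_add_distrib]
        refine Finset.sum_congr rfl fun k _ => ?_
        rw [ContinuousLinearMap.add_apply, ContinuousLinearMap.smul_apply,
          ContinuousLinearMap.smul_apply, inner_add_right, inner_smul_right, inner_smul_right]
      have hlam : ∀ s ∈ Set.range (lam : G → L2 G →L[ℂ] L2 G),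
          ∑ k : Fin n ⊕ Fin n, inner ℂ ((Sum.elim (fun j => w j) v : Fin n ⊕ Fin n → L2 G) k)
            (s ((Sum.elim v (fun j => w j) : Fin n ⊕ Fin n → L2 G) k)) = 0 := by
        rintro _ ⟨g, rfl⟩
        have o1 : opr (lamH G) (Finsupp.single g 1 + Finsupp.single g⁻¹ 1) =
            (1 : ℂ) • lam g + (1 : ℂ) • lam g⁻¹ := by
          rw [opr_eq, map_add, Finsupp.linearCombination_single, Finsupp.linearCombination_single]
          rfl
        have o2 : opr (lamH G) (Finsupp.single g Complex.I + Finsupp.single g⁻¹ (-Complex.I)) =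
            Complex.I • lam g + (-Complex.I) • lam g⁻¹ := by
          rw [opr_eq, map_add, Finsupp.linearCombination_single, Finsupp.linearCombination_single]
          rfl
        have s1 : star ((1 : ℂ) • lam g + (1 : ℂ) • lam g⁻¹) =
            (1 : ℂ) • lam g + (1 : ℂ) • lam g⁻¹ := by
          rw [star_add, star_smul, star_smul, star_lam, star_lam, inv_inv, star_one, add_comm]
        have s2 : star (Complex.I • lam g + (-Complex.I) • lam g⁻¹) =
            Complex.I • lam g + (-Complex.I) • lam g⁻¹ := by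
          rw [star_add, star_smul, star_smul, star_lam, star_lam, inv_inv, add_comm]
          simp
        have t1 := key _ s1
        have t2 := key _ s2
        have w1 := hw (vec (opr (lamH G) (Finsupp.single g 1 + Finsupp.single g⁻¹ 1)))
          ⟨_, fun h => ?_, rfl⟩
        have w2 := hw (vec (opr (lamH G)
          (Finsupp.single g Complex.I + Finsupp.single g⁻¹ (-Complex.I)))) ⟨_, fun h => ?_, rfl⟩
        · rw [o1] at w1
          rw [o2] at w2
          rw [w1, hlin] at t1
          rw [w2, hlin] at t2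
          have hI : Complex.I * Complex.I = -1 := Complex.I_mul_I
          have h2 : ∀ A B : ℂ, 1 * A + 1 * B = ((2 * 0 : ℝ) : ℂ) →
              Complex.I * A + -Complex.I * B = ((2 * 0 : ℝ) : ℂ) → A = 0 := by
            intro A B h1 h2
            have h3 : A + B = 0 := by simpa using h1
            have h4 : Complex.I * (A - B) = 0 := by
              rw [mul_zero, Complex.ofReal_zero] at h2
              rw [← h2]; ring
            have h5 : A - B = 0 := by
              rcases mul_eq_zero.1 h4 with h | h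
              · exact absurd h Complex.I_ne_zero
              · exact h
            have : A = ((A + B) + (A - B)) / 2 := by ring
            rw [this, h3, h5]; simp
          exact h2 _ _ t1 t2
        · classical
          rw [Finsupp.add_apply, Finsupp.add_apply, Finsupp.single_apply, Finsupp.single_apply,
            Finsupp.single_apply, Finsupp.single_apply]
          have e1 : (g = h⁻¹) ↔ (g⁻¹ = h) := by
            constructor
            · rintro rfl; simp
            · rintro rfl; simp
          have e2 : (g⁻¹ = h⁻¹) ↔ (g = h) := inv_inj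
          simp only [e1, e2]
          split_ifs <;> simp
        · classical
          rw [Finsupp.add_apply, Finsupp.add_apply, Finsupp.single_apply, Finsupp.single_apply,
            Finsupp.single_apply, Finsupp.single_apply]
          have e1 : (g = h⁻¹) ↔ (g⁻¹ = h) := by
            constructor
            · rintro rfl; simp
            · rintro rfl; simp
          have e2 : (g⁻¹ = h⁻¹) ↔ (g = h) := inv_inj
          simp only [e1, e2]
          split_ifs <;> simp
      have hpsi := dcomm (Set.range (lam : G → L2 G →L[ℂ] L2 G)) ⟨1, lam_one⟩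
        (by rintro _ ⟨g, rfl⟩ _ ⟨h, rfl⟩; exact ⟨g * h, lam_mul g h⟩)
        (by rintro _ ⟨g, rfl⟩; exact ⟨g⁻¹, (star_lam g).symm⟩) z hz2 _ _ hlam
      rw [key z hzs] at hpsi
      have h3 : 2 * (inner ℂ w (vec z)).re = 0 := by exact_mod_cast hpsi
      linarith
  rw [Metric.mem_closure_iff] at hcl
  obtain ⟨_, ⟨a, ha, rfl⟩, hd⟩ := hcl ε hε
  refine ⟨a, ha, fun j => ?_⟩
  rw [dist_comm, dist_eq_norm] at hd
  refine lt_of_le_of_lt ?_ hd
  exact PiLp.norm_apply_le (vec (opr (lamH G) a) - vec z) j

end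

end Pool.Agent.N55.QWP
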